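import Mathlib

/-!
# A calculus of the uniformly Diophantine relations
-/

set_option autoImplicit false

namespace Pool.Agent.Y544.FD

open MvPolynomial

/-- a function of the variables given by a polynomial, uniformly in the ring -/
def Tm (t : ∀ (M : Type) [CommRing M], (ℕ → M) → M) : Prop :=
  ∃ τ : MvPolynomial ℕ ℤ, ∀ (M : Type) [CommRing M] (v : ℕ → M),
    eval₂ (Int.castRingHom M) v τ = t M v

/-- a relation between the variables given by the solvability of a system of equations,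
uniformly in the ring -/
def Dio (P : ∀ (M : Type) [CommRing M], (ℕ → M) → Prop) : Prop :=
  ∃ S : Finset (MvPolynomial (ℕ ⊕ ℕ) ℤ), ∀ (M : Type) [CommRing M] (v : ℕ → M),
    P M v ↔ ∃ y : ℕ → M, ∀ Q ∈ S, eval₂ (Int.castRingHom M) (Sum.elim v y) Q = 0

section calculus

variable {s t : ∀ (M : Type) [CommRing M], (ℕ → M) → M}
  {P Q : ∀ (M : Type) [CommRing M], (ℕ → M) → Prop}

theorem Tm.var (i : ℕ) : Tm fun _ _ v => v i := ⟨X i, fun _ _ _ => eval₂_X _ _ _⟩

theorem Tm.one : Tm fun _ _ _ => 1 := ⟨1, fun _ _ _ => eval₂_one _ _⟩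

theorem Tm.add (hs : Tm s) (ht : Tm t) : Tm fun M _ v => s M v + t M v := by
  obtain ⟨σ, hσ⟩ := hs
  obtain ⟨τ, hτ⟩ := ht
  exact ⟨σ + τ, fun M _ v => by rw [eval₂_add, hσ, hτ]⟩

theorem Tm.mul (hs : Tm s) (ht : Tm t) : Tm fun M _ v => s M v * t M v := by
  obtain ⟨σ, hσ⟩ := hs
  obtain ⟨τ, hτ⟩ := ht
  exact ⟨σ * τ, fun M _ v => by rw [eval₂_mul, hσ, hτ]⟩

theorem Tm.sub (hs : Tm s) (ht : Tm t) : Tm fun M _ v => s M v - t M v := by
  obtain ⟨σ, hσ⟩ := hs
  obtain ⟨τ, hτ⟩ := ht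
  exact ⟨σ - τ, fun M _ v => by rw [eval₂_sub, hσ, hτ]⟩

theorem Tm.comp (hs : Tm s) (g : ℕ → ℕ) : Tm fun M _ v => s M fun i => v (g i) := by
  obtain ⟨σ, hσ⟩ := hs
  exact ⟨rename g σ, fun M _ v => by rw [eval₂_rename, hσ]; rfl⟩

theorem Dio.eq (hs : Tm s) (ht : Tm t) : Dio fun M _ v => s M v = t M v := by
  obtain ⟨σ, hσ⟩ := hs
  obtain ⟨τ, hτ⟩ := ht
  refine ⟨{rename Sum.inl (σ - τ)}, fun M _ v => ?_⟩
  simp only [Finset.mem_singleton, forall_eq]
  have h1 : ∀ y : ℕ → M, eval₂ (Int.castRingHom M) (Sum.elim v y) (rename Sum.inl (σ - τ)) =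
      s M v - t M v := by
    intro y
    rw [eval₂_rename, eval₂_sub, Sum.elim_comp_inl, hσ, hτ]
  simp only [h1, sub_eq_zero]
  exact ⟨fun h => ⟨v, h⟩, fun ⟨_, h⟩ => h⟩

open scoped Classical in
theorem Dio.and (h : Dio P) (h' : Dio Q) : Dio fun M _ v => P M v ∧ Q M v := by
  obtain ⟨S, hS⟩ := h
  obtain ⟨S', hS'⟩ := h'
  refine ⟨S.image (rename (Sum.map id fun i : ℕ => 2 * i)) ∪
    S'.image (rename (Sum.map id fun i : ℕ => 2 * i + 1)), fun M _ v => ?_⟩
  refine (and_congr (hS M v) (hS' M v)).trans ?_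
  constructor
  · rintro ⟨⟨y, hy⟩, y', hy'⟩
    refine ⟨fun n => if n % 2 = 0 then y (n / 2) else y' (n / 2), fun R hR => ?_⟩
    rcases Finset.mem_union.1 hR with hR | hR
    · obtain ⟨R, hR', rfl⟩ := Finset.mem_image.1 hR
      rw [eval₂_rename, ← hy R hR']
      congr 1
      funext i
      rcases i with i | i
      · rfl
      · simp only [Function.comp_apply, Sum.map_inr, Sum.elim_inr]
        rw [if_pos (by omega)]
        congr 1
        omega
    · obtain ⟨R, hR', rfl⟩ := Finset.mem_image.1 hR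
      rw [eval₂_rename, ← hy' R hR']
      congr 1
      funext i
      rcases i with i | i
      · rfl
      · simp only [Function.comp_apply, Sum.map_inr, Sum.elim_inr]
        rw [if_neg (by omega)]
        congr 1
        omega
  · rintro ⟨y, hy⟩
    constructor
    · refine ⟨fun i => y (2 * i), fun R hR => ?_⟩
      have h1 := hy _ (Finset.mem_union_left _ (Finset.mem_image_of_mem _ hR))
      rw [eval₂_rename] at h1
      rw [← h1]
      congr 1
      funext i
      rcases i with i | i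
      · rfl
      · rfl
    · refine ⟨fun i => y (2 * i + 1), fun R hR => ?_⟩
      have h1 := hy _ (Finset.mem_union_right _ (Finset.mem_image_of_mem _ hR))
      rw [eval₂_rename] at h1
      rw [← h1]
      congr 1
      funext i
      rcases i with i | i
      · rfl
      · rfl

open scoped Classical in
theorem Dio.ex {Q : ∀ (M : Type) [CommRing M], M → (ℕ → M) → Prop}
    (h : Dio fun M _ v => Q M (v 0) fun i => v (i + 1)) : Dio fun M _ v => ∃ a, Q M a v := by
  obtain ⟨S, hS⟩ := h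
  let e : ℕ ⊕ ℕ → ℕ ⊕ ℕ :=
    Sum.elim (fun j : ℕ => (Nat.casesOn j (Sum.inr 0) Sum.inl : ℕ ⊕ ℕ)) fun i => Sum.inr (i + 1)
  refine ⟨S.image (rename e), fun M _ v => ?_⟩
  have key : ∀ (a : M) (y : ℕ → M),
      Sum.elim v (fun j : ℕ => (Nat.casesOn j a y : M)) ∘ e =
        Sum.elim (fun j : ℕ => (Nat.casesOn j a v : M)) y := by
    intro a y
    funext i
    rcases i with (- | i) | i
    · rfl
    · rfl
    · rfl
  constructor
  · rintro ⟨a, ha⟩
    obtain ⟨y, hy⟩ := (hS M fun j : ℕ => (Nat.casesOn j a v : M)).1 ha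
    refine ⟨fun j : ℕ => (Nat.casesOn j a y : M), fun R hR => ?_⟩
    obtain ⟨R, hR', rfl⟩ := Finset.mem_image.1 hR
    rw [eval₂_rename, key]
    exact hy R hR'
  · rintro ⟨y, hy⟩
    refine ⟨y 0, (hS M fun j : ℕ => (Nat.casesOn j (y 0) v : M)).2 ⟨fun i => y (i + 1),
      fun R hR => ?_⟩⟩
    have h1 := hy _ (Finset.mem_image_of_mem _ hR)
    rw [eval₂_rename] at h1
    rw [← key, ← h1]
    have h2 : (fun j : ℕ => (Nat.casesOn j (y 0) fun i => y (i + 1) : M)) = y := by
      funext j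
      rcases j with - | j
      · rfl
      · rfl
    rw [h2]

/-- the polynomials in finitely many variables -/
theorem Dio.fin (h : Dio P) : ∃ (n : ℕ) (S : Finset (MvPolynomial (Fin 3 ⊕ Fin n) ℤ)),
    ∀ (M : Type) [CommRing M] (w : Fin 3 → M),
      P M (fun i => w (if i = 0 then 0 else if i = 1 then 1 else 2)) ↔
        ∃ y : Fin n → M, ∀ Q ∈ S, eval₂ (Int.castRingHom M) (Sum.elim w y) Q = 0 := by
  classical
  obtain ⟨S, hS⟩ := h
  obtain ⟨N, hN⟩ : ∃ N, ∀ R ∈ S, ∀ i, Sum.inr i ∈ R.vars → i < N := by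
    refine ⟨S.sup fun R => R.vars.sup (Sum.elim (fun _ => 0) fun i => i + 1), fun R hR i hi => ?_⟩
    have h1 : i + 1 ≤ R.vars.sup (Sum.elim (fun _ => 0) fun i => i + 1) :=
      Finset.le_sup (f := (Sum.elim (fun _ => 0) fun i => i + 1 : ℕ ⊕ ℕ → ℕ)) hi
    have h2 : R.vars.sup (Sum.elim (fun _ => 0) fun i => i + 1) ≤
        S.sup fun R => R.vars.sup (Sum.elim (fun _ => 0) fun i => i + 1) :=
      Finset.le_sup (f := fun R : MvPolynomial (ℕ ⊕ ℕ) ℤ =>
        R.vars.sup (Sum.elim (fun _ => 0) fun i => i + 1)) hR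
    omega
  let g : ℕ → Fin 3 := fun i => if i = 0 then 0 else if i = 1 then 1 else 2
  let κ : ℕ ⊕ ℕ → Fin 3 ⊕ Fin N :=
    Sum.elim (fun i => Sum.inl (g i)) fun i => if h : i < N then Sum.inr ⟨i, h⟩ else Sum.inl 0
  refine ⟨N, S.image (rename κ), fun M _ w => ?_⟩
  rw [hS]
  constructor
  · rintro ⟨y, hy⟩
    refine ⟨fun i => y i, fun R hR => ?_⟩
    obtain ⟨R, hR', rfl⟩ := Finset.mem_image.1 hR
    rw [eval₂_rename, ← hy R hR']
    refine eval₂_congr _ _ _ ?_
    intro i c hi hc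
    have hv : i ∈ R.vars := (mem_vars_iff_mem_support i).2 ⟨c, mem_support_iff.2 hc, hi⟩
    rcases i with i | i
    · rfl
    · have h1 := hN R hR' i hv
      simp only [Function.comp_apply, κ, Sum.elim_inr, dif_pos h1]
  · rintro ⟨y, hy⟩
    refine ⟨fun i => if h : i < N then y ⟨i, h⟩ else w 0, fun R hR => ?_⟩
    have h1 := hy _ (Finset.mem_image_of_mem _ hR)
    rw [eval₂_rename] at h1
    rw [← h1]
    congr 1
    funext i
    rcases i with i | i
    · rfl
    · simp only [Function.comp_apply, κ, Sum.elim_inr]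
      by_cases h : i < N
      · simp only [dif_pos h, Sum.elim_inr]
      · simp only [dif_neg h, Sum.elim_inl]

end calculus

end Pool.Agent.Y544.FD
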