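import Pool.Agent.Y544.FD.Sem

/-!
# The main equivalence
-/

set_option autoImplicit false

namespace Pool.Agent.Y544.FD

open Polynomial

variable {p : ℕ} [hp : Fact p.Prime]

theorem one_lt_p : 1 < p := hp.out.one_lt

theorem q_pos (s : ℕ) : 0 < p ^ s := pow_pos hp.out.pos s

theorem small_spec (hpell : S_pell) (hshift : S_shift) {a B : (ZMod p)[X]} (hB : B ≠ 0)
    (h : Small X a B) : a ≠ 0 ∧ 3 * a.natDegree ≤ B.natDegree := by
  obtain ⟨A, A', r, l, l', hA, hA', h1, h2, h3⟩ := h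
  have hX : 0 < (X : (ZMod p)[X]).natDegree := by rw [natDegree_X]; exact one_pos
  obtain ⟨i, rfl⟩ := pw_spec hpell hshift hX hA
  obtain ⟨j, rfl⟩ := pw_spec hpell hshift hX hA'
  have hl' : l' ≠ 0 := by
    rintro rfl
    rw [mul_zero] at h3
    exact hB h3
  have hne : (X ^ p ^ i - X ^ p ^ j : (ZMod p)[X]) ≠ 0 := by
    intro h0
    have h4 : (X ^ p ^ j : (ZMod p)[X]) * (X * l - 1) = 0 := by
      linear_combination h0 - h2
    have h5 : (X ^ p ^ j : (ZMod p)[X]) ≠ 0 := pow_ne_zero _ X_ne_zero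
    have h6 := (mul_eq_zero.1 h4).resolve_left h5
    have h7 := congrArg (eval 0) h6
    simp at h7
  have hji : p ^ j ≤ p ^ i := by
    have hl : l ≠ 0 := by
      rintro rfl
      rw [mul_zero, mul_zero] at h2
      exact pow_ne_zero _ X_ne_zero h2
    have h4 := congrArg natDegree h2
    rw [natDegree_X_pow, natDegree_mul (pow_ne_zero _ X_ne_zero) (mul_ne_zero X_ne_zero hl),
      natDegree_X_pow] at h4
    omega
  have ha : a ≠ 0 := by
    rintro rfl
    rw [zero_mul] at h1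
    exact hne h1
  have hr : r ≠ 0 := by
    rintro rfl
    rw [mul_zero] at h1
    exact hne h1
  refine ⟨ha, ?_⟩
  have h4 : (X ^ p ^ i - X ^ p ^ j : (ZMod p)[X]).natDegree ≤ p ^ i := by
    refine (natDegree_sub_le _ _).trans ?_
    rw [natDegree_X_pow, natDegree_X_pow]
    exact max_le le_rfl hji
  rw [h1, natDegree_mul ha hr] at h4
  have hXi : (X ^ p ^ i : (ZMod p)[X]) ≠ 0 := pow_ne_zero _ X_ne_zero
  rw [h3, natDegree_mul (mul_ne_zero (mul_ne_zero hXi hXi) hXi) hl',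
    natDegree_mul (mul_ne_zero hXi hXi) hXi, natDegree_mul hXi hXi, natDegree_X_pow]
  omega

theorem small_pow (hpell : S_pell) (hshift : S_shift) {a B : (ZMod p)[X]} (s : ℕ)
    (h : Small X a B) : Small X (a ^ p ^ s) (B ^ p ^ s) := by
  obtain ⟨A, A', r, l, l', hA, hA', h1, h2, h3⟩ := h
  have hX : 0 < (X : (ZMod p)[X]).natDegree := by rw [natDegree_X]; exact one_pos
  obtain ⟨i, hi⟩ := pw_spec hpell hshift hX hA
  obtain ⟨j, hj⟩ := pw_spec hpell hshift hX hA'
  have hpw : ∀ (C : (ZMod p)[X]) (k : ℕ), C = X ^ p ^ k → Pw X (C ^ p ^ s) := by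
    rintro C k rfl
    rw [← pow_mul, ← pow_add]
    exact pw_exists X (k + s)
  obtain ⟨q, hq⟩ : ∃ q, p ^ s = q + 1 := ⟨p ^ s - 1, by have := q_pos (p := p) s; omega⟩
  refine ⟨A ^ p ^ s, A' ^ p ^ s, r ^ p ^ s, X ^ q * l ^ p ^ s, l' ^ p ^ s, hpw A i hi,
    hpw A' j hj, ?_, ?_, ?_⟩
  · rw [← sub_pow_char_pow, h1, mul_pow]
  · rw [h2, mul_pow, mul_pow, ← mul_assoc X, ← pow_succ', ← hq]
  · rw [h3, mul_pow, mul_pow, mul_pow]

theorem small_exists (hpig : S_pigeon) {f : (ZMod p)[X]} (hf : f ≠ 0) :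
    ∃ s₀, ∀ s, s₀ ≤ s → Small X f (X ^ p ^ s) := by
  obtain ⟨i, j, hji, r, hr⟩ := hpig p f hf
  refine ⟨i + 2, fun s hs => ?_⟩
  have h1 : p ^ j < p ^ i := Nat.pow_lt_pow_right one_lt_p hji
  have h2 : 3 * p ^ i ≤ p ^ s := by
    have h3 : p ^ (i + 2) ≤ p ^ s := Nat.pow_le_pow_right hp.out.pos hs
    have h4 : 4 * p ^ i ≤ p ^ (i + 2) := by
      rw [pow_add, mul_comm]
      refine Nat.mul_le_mul_left _ ?_
      have := hp.out.two_le
      nlinarith
    have := q_pos (p := p) i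
    omega
  refine ⟨X ^ p ^ i, X ^ p ^ j, r, X ^ (p ^ i - p ^ j - 1), X ^ (p ^ s - 3 * p ^ i),
    pw_exists X i, pw_exists X j, hr, ?_, ?_⟩
  · rw [← pow_succ', ← pow_add]
    congr 1
    omega
  · rw [← pow_add, ← pow_add, ← pow_add]
    congr 1
    omega

/-- the exponents are the same -/
theorem link (hpell : S_pell) (hshift : S_shift) {W f b : (ZMod p)[X]} {s : ℕ}
    (hW : 0 < W.natDegree) (hf : Small X f W) (hb : Small X b (W ^ p ^ s))
    (h : Pw (W + f) (W ^ p ^ s + b)) : b = f ^ p ^ s := by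
  have hW0 : W ≠ 0 := by
    rintro rfl
    rw [natDegree_zero] at hW
    exact lt_irrefl _ hW
  obtain ⟨-, hfd⟩ := small_spec hpell hshift hW0 hf
  obtain ⟨hb0, hbd⟩ := small_spec hpell hshift (pow_ne_zero _ hW0) hb
  rw [natDegree_pow] at hbd
  have h1 : (W + f).natDegree = W.natDegree := natDegree_add_eq_left_of_natDegree_lt (by omega)
  obtain ⟨s', h2⟩ := pw_spec hpell hshift (by rw [h1]; exact hW) h
  have hdeg : (W ^ p ^ s + b).natDegree = p ^ s' * W.natDegree := by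
    rw [h2, natDegree_pow, h1]
  have hpos := Nat.mul_pos (q_pos (p := p) s) hW
  have hlt : b.natDegree < (W ^ p ^ s).natDegree := by
    rw [natDegree_pow]
    omega
  rw [natDegree_add_eq_left_of_natDegree_lt hlt, natDegree_pow] at hdeg
  have h3 : p ^ s = p ^ s' := Nat.eq_of_mul_eq_mul_right hW hdeg
  rw [← h3, add_pow_char_pow] at h2
  exact add_left_cancel h2

theorem natTrailing_eq {V f h : (ZMod p)[X]} (hf : f ≠ 0) (hh : h.coeff 0 ≠ 0)
    (heq : X ^ f.natDegree * h = V * f.reverse) : f.natDegree = V.natTrailingDegree := by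
  have hh0 : h ≠ 0 := by
    rintro rfl
    rw [coeff_zero] at hh
    exact hh rfl
  have hV : V ≠ 0 := by
    rintro rfl
    rw [zero_mul] at heq
    exact mul_ne_zero (pow_ne_zero _ X_ne_zero) hh0 heq
  have hr : f.reverse ≠ 0 := by
    intro h0
    exact hf (reverse_eq_zero.1 h0)
  have h1 := congrArg natTrailingDegree heq
  rw [natTrailingDegree_mul (pow_ne_zero _ X_ne_zero) hh0, natTrailingDegree_mul hV hr,
    natTrailingDegree_X_pow] at h1
  have h2 : h.natTrailingDegree = 0 := natTrailingDegree_eq_zero.2 (Or.inr hh)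
  have h3 : f.reverse.natTrailingDegree = 0 := by
    refine natTrailingDegree_eq_zero.2 (Or.inr ?_)
    rw [coeff_zero_reverse]
    exact leadingCoeff_ne_zero.2 hf
  omega

theorem one_spec (hpell : S_pell) (hshift : S_shift) (hrev : S_reverse) {V f : (ZMod p)[X]}
    {s : ℕ} (hV : 3 * V.natDegree ≤ p ^ s)
    (h : One X (X ^ p ^ s) ((X ^ p ^ s) ^ p ^ s) V f) :
    f ≠ 0 ∧ f.natDegree = V.natTrailingDegree := by
  obtain ⟨b, h, h1, h2, h3, h4, ⟨m, hm⟩, u, u', r, huu, hu⟩ := h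
  have hWd : 0 < (X ^ p ^ s : (ZMod p)[X]).natDegree := by
    rw [natDegree_X_pow]
    exact q_pos s
  have hW0 : (X ^ p ^ s : (ZMod p)[X]) ≠ 0 := pow_ne_zero _ X_ne_zero
  have hb := link hpell hshift hWd h2 h3 h1
  obtain ⟨hf0, hfd⟩ := small_spec hpell hshift hW0 h2
  obtain ⟨hh0, hhd⟩ := small_spec hpell hshift hW0 h4
  rw [natDegree_X_pow] at hfd hhd
  refine ⟨hf0, natTrailing_eq hf0 ?_ (h := h) ?_⟩
  · have h5 := congrArg (eval 0) huu
    have h6 := congrArg (eval 0) hu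
    rw [eval_mul, eval_one] at h5
    rw [eval_add, eval_mul, eval_X, zero_mul, add_zero] at h6
    rw [coeff_zero_eq_eval_zero, h6]
    intro h7
    rw [h7, zero_mul] at h5
    exact zero_ne_one h5
  · obtain ⟨k, hk⟩ := hrev p s f
    have hdvd : (X * X ^ p ^ s - 1 : (ZMod p)[X]) ∣ X ^ f.natDegree * h - V * f.reverse := by
      refine ⟨X ^ f.natDegree * m + V * k, ?_⟩
      rw [hb] at hm
      linear_combination (X ^ f.natDegree : (ZMod p)[X]) * hm + V * hk
    have hmod : (X * X ^ p ^ s - 1 : (ZMod p)[X]).natDegree = p ^ s + 1 := by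
      rw [← pow_succ', ← C_1]
      exact natDegree_X_pow_sub_C
    have h0 : X ^ f.natDegree * h - V * f.reverse = 0 := by
      refine eq_zero_of_dvd_of_natDegree_lt hdvd ?_
      rw [hmod]
      refine lt_of_le_of_lt (natDegree_sub_le _ _) (max_lt ?_ ?_)
      · refine lt_of_le_of_lt natDegree_mul_le ?_
        rw [natDegree_X_pow]
        omega
      · refine lt_of_le_of_lt natDegree_mul_le ?_
        have := reverse_natDegree_le f
        omega
    exact sub_eq_zero.1 h0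

theorem main_fwd (hpell : S_pell) (hshift : S_shift) (hrev : S_reverse) {f g : (ZMod p)[X]}
    (h : Main X f g) : f ≠ 0 ∧ g ≠ 0 ∧ f.natDegree = g.natDegree := by
  obtain ⟨W, W', V, h1, h2, h3, h4, h5, ⟨l, hl⟩, h6, h7⟩ := h
  have hX : 0 < (X : (ZMod p)[X]).natDegree := by rw [natDegree_X]; exact one_pos
  obtain ⟨s, hs⟩ := pw_spec hpell hshift hX h1
  have hWd : 0 < W.natDegree := by
    rw [hs, natDegree_X_pow]
    exact q_pos s
  have hW0 : W ≠ 0 := by
    rw [hs]
    exact pow_ne_zero _ X_ne_zero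
  obtain ⟨s', rfl⟩ := pw_spec hpell hshift hWd h2
  have hWX := link hpell hshift hWd h4 h5 h3
  have hss : p ^ s = p ^ s' := by
    have h8 := congrArg natDegree hWX
    rwa [hs, natDegree_X_pow, natDegree_X_pow] at h8
  subst hWX
  have hV : 3 * V.natDegree ≤ p ^ s' := by
    have hV0 : V ≠ 0 := by
      rintro rfl
      rw [mul_zero, zero_mul] at hl
      exact hW0 hl
    have hl0 : l ≠ 0 := by
      rintro rfl
      rw [mul_zero] at hl
      exact hW0 hl
    have h8 := congrArg natDegree hl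
    rw [natDegree_X_pow, natDegree_mul (mul_ne_zero (mul_ne_zero hV0 hV0) hV0) hl0,
      natDegree_mul (mul_ne_zero hV0 hV0) hV0, natDegree_mul hV0 hV0] at h8
    omega
  obtain ⟨hf, hfd⟩ := one_spec hpell hshift hrev hV h6
  obtain ⟨hg, hgd⟩ := one_spec hpell hshift hrev hV h7
  exact ⟨hf, hg, hfd.trans hgd.symm⟩

theorem one_exists (hpell : S_pell) (hshift : S_shift) (hrev : S_reverse) {f : (ZMod p)[X]}
    (hf : f ≠ 0) {s : ℕ} (h1 : Small X f (X ^ p ^ s)) (h2 : Small X f.reverse (X ^ p ^ s)) :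
    One X (X ^ p ^ s) ((X ^ p ^ s) ^ p ^ s) (X ^ f.natDegree) f := by
  refine ⟨f ^ p ^ s, f.reverse, ?_, h1, small_pow hpell hshift s h1, h2, ?_, C f.leadingCoeff,
    C f.leadingCoeff⁻¹, f.reverse.divX, ?_, ?_⟩
  · rw [← add_pow_char_pow]
    exact pw_exists _ _
  · obtain ⟨k, hk⟩ := hrev p s f
    exact ⟨-k, by linear_combination -hk⟩
  · rw [← C_mul, mul_inv_cancel₀ (leadingCoeff_ne_zero.2 hf), C_1]
  · rw [← coeff_zero_reverse, add_comm]
    exact (X_mul_divX_add _).symm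

theorem main_bwd (hpell : S_pell) (hshift : S_shift) (hrev : S_reverse) (hpig : S_pigeon)
    {f g : (ZMod p)[X]} (hf : f ≠ 0) (hg : g ≠ 0) (hfg : f.natDegree = g.natDegree) :
    Main X f g := by
  have hfr : f.reverse ≠ 0 := fun h0 => hf (reverse_eq_zero.1 h0)
  have hgr : g.reverse ≠ 0 := fun h0 => hg (reverse_eq_zero.1 h0)
  obtain ⟨s₁, h1⟩ := small_exists hpig hf
  obtain ⟨s₂, h2⟩ := small_exists hpig hg
  obtain ⟨s₃, h3⟩ := small_exists hpig hfr
  obtain ⟨s₄, h4⟩ := small_exists hpig hgr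
  obtain ⟨s₅, h5⟩ := small_exists hpig (X_ne_zero : (X : (ZMod p)[X]) ≠ 0)
  obtain ⟨s, hs⟩ : ∃ s, s = s₁ + s₂ + s₃ + s₄ + s₅ + 3 * f.natDegree := ⟨_, rfl⟩
  have hsq : 3 * f.natDegree ≤ p ^ s := by
    have h6 : s < p ^ s := Nat.lt_pow_self one_lt_p
    omega
  refine ⟨X ^ p ^ s, (X ^ p ^ s) ^ p ^ s, X ^ f.natDegree, pw_exists _ _, pw_exists _ _, ?_,
    h5 s (by omega), ?_, ⟨X ^ (p ^ s - 3 * f.natDegree), ?_⟩, ?_, ?_⟩
  · rw [← add_pow_char_pow]
    exact pw_exists _ _
  · exact small_pow hpell hshift s (h5 s (by omega))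
  · rw [← pow_add, ← pow_add, ← pow_add]
    congr 1
    omega
  · exact one_exists hpell hshift hrev hf (h1 s (by omega)) (h3 s (by omega))
  · rw [hfg]
    exact one_exists hpell hshift hrev hg (h2 s (by omega)) (h4 s (by omega))

theorem main_iff (hpell : S_pell) (hshift : S_shift) (hrev : S_reverse) (hpig : S_pigeon)
    (f g : (ZMod p)[X]) : f.degree = g.degree ↔ (f = 0 ∧ g = 0) ∨ Main X f g := by
  constructor
  · intro h
    by_cases hf : f = 0
    · left
      rw [hf, degree_zero] at h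
      exact ⟨hf, degree_eq_bot.1 h.symm⟩
    · right
      have hg : g ≠ 0 := by
        rintro rfl
        rw [degree_zero] at h
        exact hf (degree_eq_bot.1 h)
      exact main_bwd hpell hshift hrev hpig hf hg (natDegree_eq_of_degree_eq h)
  · rintro (⟨rfl, rfl⟩ | h)
    · rfl
    · obtain ⟨hf, hg, h1⟩ := main_fwd hpell hshift hrev h
      rw [degree_eq_natDegree hf, degree_eq_natDegree hg, h1]

/-- the formula -/
theorem final (hpell : S_pell) (hshift : S_shift) (hrev : S_reverse) (hpig : S_pigeon) :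
    ∃ (n : ℕ) (D : Finset (Finset (MvPolynomial (Fin 3 ⊕ Fin n) ℤ) ×
        MvPolynomial (Fin 3 ⊕ Fin n) ℤ)),
      ∀ p : ℕ, p.Prime → ∀ f g : Polynomial (ZMod p),
        (f.degree = g.degree ↔
          ∃ y : Fin n → Polynomial (ZMod p), ∃ d ∈ D,
            (∀ P ∈ d.1, MvPolynomial.aeval (Sum.elim ![Polynomial.X, f, g] y) P = 0) ∧
            MvPolynomial.aeval (Sum.elim ![Polynomial.X, f, g] y) d.2 ≠ 0) := by
  classical
  obtain ⟨n, S, hS⟩ := exists_system
  refine ⟨n, {({MvPolynomial.X (Sum.inl 1), MvPolynomial.X (Sum.inl 2)}, 1), (S, 1)},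
    fun p hp f g => ?_⟩
  have : Fact p.Prime := ⟨hp⟩
  have hev : ∀ (v : Fin 3 ⊕ Fin n → (ZMod p)[X]) (P : MvPolynomial (Fin 3 ⊕ Fin n) ℤ),
      MvPolynomial.aeval v P = MvPolynomial.eval₂ (Int.castRingHom _) v P := by
    intro v P
    rw [MvPolynomial.aeval_def]
    congr 1
  rw [main_iff hpell hshift hrev hpig, hS]
  constructor
  · rintro (⟨rfl, rfl⟩ | ⟨y, hy⟩)
    · refine ⟨fun _ => 0, ({MvPolynomial.X (Sum.inl 1), MvPolynomial.X (Sum.inl 2)}, 1),
        by simp, ?_, ?_⟩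
      · intro P hP
        simp only [Finset.mem_insert, Finset.mem_singleton] at hP
        rcases hP with rfl | rfl
        · rw [MvPolynomial.aeval_X]
          rfl
        · rw [MvPolynomial.aeval_X]
          rfl
      · rw [map_one]
        exact one_ne_zero
    · refine ⟨y, (S, 1), by simp, fun P hP => ?_, ?_⟩
      · rw [hev]
        exact hy P hP
      · rw [map_one]
        exact one_ne_zero
  · rintro ⟨y, d, hd, h1, h2⟩
    simp only [Finset.mem_insert, Finset.mem_singleton] at hd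
    rcases hd with rfl | rfl
    · left
      have h3 := h1 (MvPolynomial.X (Sum.inl 1)) (by simp)
      have h4 := h1 (MvPolynomial.X (Sum.inl 2)) (by simp)
      rw [MvPolynomial.aeval_X] at h3 h4
      exact ⟨h3, h4⟩
    · right
      refine ⟨y, fun Q hQ => ?_⟩
      rw [← hev]
      exact h1 Q hQ

end Pool.Agent.Y544.FD
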