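import Pool.Agent.Y544.FD.Dio

/-!
# The Diophantine relations of the project
-/

set_option autoImplicit false

namespace Pool.Agent.Y544.FD

section ring

variable {R : Type*} [CommRing R]

/-- for `F_p[t]` and `z` not constant: `w = z ^ (p ^ s)` for some `s` -/
def Pw (z w : R) : Prop := ∃ x y x' y' u, x * x + z * x * y + y * y = 1 ∧ w = x + x + z * y ∧
  x' * x' + (z + 1) * x' * y' + y' * y' = 1 ∧ w + 1 = x' + x' + (z + 1) * y' ∧ w = z * u

/-- `a` is nonzero and three times its degree is at most the degree of `B` -/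
def Small (t a B : R) : Prop := ∃ A A' r l l', Pw t A ∧ Pw t A' ∧ A - A' = a * r ∧
  A = A' * (t * l) ∧ B = A * A * A * l'

/-- the relation of one polynomial to the witnesses -/
def One (t W W' V f : R) : Prop := ∃ b h, Pw (W + f) (W' + b) ∧ Small t f W ∧ Small t b W' ∧
  Small t h W ∧ (∃ m, h - V * b = (t * W - 1) * m) ∧ ∃ u u' r, u * u' = 1 ∧ h = u + t * r

/-- equal degrees, for nonzero polynomials -/
def Main (t f g : R) : Prop := ∃ W W' V, Pw t W ∧ Pw W W' ∧ Pw (W + t) (W' + W) ∧
  Small t t W ∧ Small t W W' ∧ (∃ l, W = V * V * V * l) ∧ One t W W' V f ∧ One t W W' V g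

end ring

section dio

variable {s t a b c : ∀ (M : Type) [CommRing M], (ℕ → M) → M}

theorem pw (hs : Tm s) (ht : Tm t) : Dio fun M _ v => Pw (s M v) (t M v) := by
  unfold Pw
  refine .ex (.ex (.ex (.ex (.ex (.and (.eq ?_ .one) (.and (.eq (ht.comp _) ?_)
    (.and (.eq ?_ .one) (.and (.eq (.add (ht.comp _) .one) ?_)
      (.eq (ht.comp _) (.mul (hs.comp _) (.var _)))))))))))
  · exact .add (.add (.mul (.var _) (.var _)) (.mul (.mul (hs.comp _) (.var _)) (.var _)))
      (.mul (.var _) (.var _))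
  · exact .add (.add (.var _) (.var _)) (.mul (hs.comp _) (.var _))
  · exact .add (.add (.mul (.var _) (.var _)) (.mul (.mul (.add (hs.comp _) .one) (.var _))
      (.var _))) (.mul (.var _) (.var _))
  · exact .add (.add (.var _) (.var _)) (.mul (.add (hs.comp _) .one) (.var _))

theorem small (hs : Tm s) (ht : Tm t) (ha : Tm a) :
    Dio fun M _ v => Small (s M v) (t M v) (a M v) := by
  unfold Small
  exact .ex (.ex (.ex (.ex (.ex (.and (pw (hs.comp _) (.var _)) (.and (pw (hs.comp _) (.var _))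
    (.and (.eq (.sub (.var _) (.var _)) (.mul (ht.comp _) (.var _)))
      (.and (.eq (.var _) (.mul (.var _) (.mul (hs.comp _) (.var _))))
        (.eq (ha.comp _) (.mul (.mul (.mul (.var _) (.var _)) (.var _)) (.var _)))))))))))

theorem one' (hs : Tm s) (ht : Tm t) (ha : Tm a) (hb : Tm b) (hc : Tm c) :
    Dio fun M _ v => One (s M v) (t M v) (a M v) (b M v) (c M v) := by
  unfold One
  refine .ex (.ex (.and (pw (.add (ht.comp _) (hc.comp _)) (.add (ha.comp _) (.var _)))
    (.and (small (hs.comp _) (hc.comp _) (ht.comp _)) (.and (small (hs.comp _) (.var _)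
      (ha.comp _)) (.and (small (hs.comp _) (.var _) (ht.comp _)) (.and ?_ ?_))))))
  · exact .ex (.eq (.sub (.var _) (.mul (hb.comp _) (.var _)))
      (.mul (.sub (.mul (hs.comp _) (ht.comp _)) .one) (.var _)))
  · exact .ex (.ex (.ex (.and (.eq (.mul (.var _) (.var _)) .one)
      (.eq (.var _) (.add (.var _) (.mul (hs.comp _) (.var _)))))))

theorem main' (hs : Tm s) (ht : Tm t) (ha : Tm a) :
    Dio fun M _ v => Main (s M v) (t M v) (a M v) := by
  unfold Main
  exact .ex (.ex (.ex (.and (pw (hs.comp _) (.var _)) (.and (pw (.var _) (.var _))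
    (.and (pw (.add (.var _) (hs.comp _)) (.add (.var _) (.var _)))
      (.and (small (hs.comp _) (hs.comp _) (.var _)) (.and (small (hs.comp _) (.var _) (.var _))
        (.and (.ex (.eq (.var _) (.mul (.mul (.mul (.var _) (.var _)) (.var _)) (.var _))))
          (.and (one' (hs.comp _) (.var _) (.var _) (.var _) (ht.comp _))
            (one' (hs.comp _) (.var _) (.var _) (.var _) (ha.comp _)))))))))))

end dio

/-- the system of the equations -/
theorem exists_system : ∃ (n : ℕ) (S : Finset (MvPolynomial (Fin 3 ⊕ Fin n) ℤ)),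
    ∀ (M : Type) [CommRing M] (t f g : M), Main t f g ↔
      ∃ y : Fin n → M, ∀ Q ∈ S, MvPolynomial.eval₂ (Int.castRingHom M)
        (Sum.elim ![t, f, g] y) Q = 0 := by
  obtain ⟨n, S, h⟩ := (main' (Tm.var 0) (Tm.var 1) (Tm.var 2)).fin
  exact ⟨n, S, fun M _ t f g => h M ![t, f, g]⟩

end Pool.Agent.Y544.FD
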