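import Pool.Agent.Y544.FD.Stm
import Pool.Agent.Y544.FD.Pred

/-!
# The relations in the ring `F_p[t]`
-/

set_option autoImplicit false

namespace Pool.Agent.Y544.FD

open Polynomial

variable {p : ℕ} [hp : Fact p.Prime]

/-- the Dickson polynomials are monic -/
theorem dickson_monic (n : ℕ) (hn : 0 < n) :
    (dickson 1 (1 : ZMod p) n).Monic ∧ (dickson 1 (1 : ZMod p) n).natDegree = n ∧
      (dickson 1 (1 : ZMod p) (n + 1)).Monic ∧ (dickson 1 (1 : ZMod p) (n + 1)).natDegree = n + 1 := by
  induction n with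
  | zero => exact absurd hn (lt_irrefl 0)
  | succ n ih =>
    rcases Nat.eq_zero_or_pos n with h0 | hn'
    · subst h0
      have h2 : dickson 1 (1 : ZMod p) 2 = X ^ 2 - C 2 := by
        rw [dickson_two]
        simp only [map_one, one_mul, Nat.cast_one]
        congr 1
        norm_num
        rfl
      refine ⟨?_, ?_, ?_, ?_⟩
      · rw [zero_add, dickson_one]
        exact monic_X
      · rw [zero_add, dickson_one, natDegree_X]
      · show (dickson 1 (1 : ZMod p) 2).Monic
        rw [h2]
        exact monic_X_pow_sub_C _ (by norm_num)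
      · show (dickson 1 (1 : ZMod p) 2).natDegree = 2
        rw [h2]
        exact natDegree_X_pow_sub_C
    · obtain ⟨h1, h2, h3, h4⟩ := ih hn'
      have h5 : dickson 1 (1 : ZMod p) (n + 1 + 1) =
          X * dickson 1 (1 : ZMod p) (n + 1) - dickson 1 (1 : ZMod p) n := by
        rw [dickson_add_two, C_1, one_mul]
      have h6 : (X * dickson 1 (1 : ZMod p) (n + 1)).Monic := monic_X.mul h3
      have h7 : (X * dickson 1 (1 : ZMod p) (n + 1)).natDegree = n + 1 + 1 := by
        rw [monic_X.natDegree_mul h3, natDegree_X, h4]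
        ring
      have h8 : (dickson 1 (1 : ZMod p) n).degree < (X * dickson 1 (1 : ZMod p) (n + 1)).degree := by
        rw [degree_eq_natDegree h1.ne_zero, degree_eq_natDegree h6.ne_zero, h2, h7]
        exact_mod_cast (by omega : n < n + 1 + 1)
      refine ⟨h3, h4, ?_, ?_⟩
      · rw [h5]
        exact h6.sub_of_left h8
      · rw [h5, natDegree_sub_eq_left_of_natDegree_lt, h7]
        rw [h2, h7]
        omega

theorem dickson_natDegree {n : ℕ} (hn : 0 < n) :
    (dickson 1 (1 : ZMod p) n).natDegree = n := (dickson_monic n hn).2.1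

theorem dickson_mon {n : ℕ} (hn : 0 < n) :
    (dickson 1 (1 : ZMod p) n).Monic := (dickson_monic n hn).1

theorem dickson_pow (s : ℕ) : dickson 1 (1 : ZMod p) (p ^ s) = X ^ p ^ s := by
  induction s with
  | zero => rw [pow_zero, dickson_one, pow_one]
  | succ s ih =>
    rw [pow_succ, dickson_one_one_mul, ih, dickson_one_one_zmod_p, pow_comp, X_comp, ← pow_mul,
      mul_comm]

/-- the points of the torus -/
theorem exists_pell (z : (ZMod p)[X]) (n : ℕ) : ∃ x y : (ZMod p)[X],
    x * x + z * x * y + y * y = 1 ∧ (dickson 1 (1 : ZMod p) n).comp z = x + x + z * y ∧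
    (dickson 1 (1 : ZMod p) (n + 1)).comp z = -y + -y + z * (x + z * y) := by
  induction n with
  | zero =>
    refine ⟨1, 0, by ring, ?_, ?_⟩
    · rw [dickson_zero]
      have h3 : (3 - ((1 : ℕ) : (ZMod p)[X])) = C 2 := by
        norm_num
        rfl
      rw [h3, C_comp]
      have h2 : (C 2 : (ZMod p)[X]) = 2 := rfl
      rw [h2]
      ring
    · rw [zero_add, dickson_one, X_comp]
      ring
  | succ n ih =>
    obtain ⟨x, y, h1, h2, h3⟩ := ih
    refine ⟨-y, x + z * y, ?_, ?_, ?_⟩
    · rw [← h1]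
      ring
    · rw [h3]
    · rw [dickson_add_two, C_1, one_mul, sub_comp, mul_comp, X_comp, h2, h3]
      ring

theorem pw_exists (z : (ZMod p)[X]) (s : ℕ) : Pw z (z ^ p ^ s) := by
  obtain ⟨x, y, h1, h2, -⟩ := exists_pell z (p ^ s)
  obtain ⟨x', y', h1', h2', -⟩ := exists_pell (z + 1) (p ^ s)
  rw [dickson_pow, pow_comp, X_comp] at h2 h2'
  have hq : p ^ s ≠ 0 := pow_ne_zero _ hp.out.ne_zero
  refine ⟨x, y, x', y', z ^ (p ^ s - 1), h1, h2, h1', ?_, ?_⟩
  · rw [← h2', add_pow_char_pow, one_pow]
  · rw [← pow_succ']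
    congr 1
    omega

theorem comp_natDegree_pos {n : ℕ} (hn : 0 < n) {z : (ZMod p)[X]} :
    ((dickson 1 (1 : ZMod p) n).comp z).natDegree = n * z.natDegree := by
  rw [natDegree_comp, dickson_natDegree hn]

theorem pw_spec (hpell : S_pell) (hshift : S_shift) {z w : (ZMod p)[X]} (hz : 0 < z.natDegree)
    (h : Pw z w) : ∃ s, w = z ^ p ^ s := by
  obtain ⟨x, y, x', y', u, h1, h2, h3, h4, h5⟩ := h
  have hz1 : (z + 1).natDegree = z.natDegree := by
    rw [← C_1, natDegree_add_C]
  obtain ⟨n, ε, hε, hw⟩ : ∃ n, ∃ ε : ZMod p, (ε = 1 ∨ ε = -1) ∧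
      w = C ε * (dickson 1 (1 : ZMod p) n).comp z := by
    obtain ⟨n, h | h⟩ := hpell p z x y hz (by linear_combination h1)
    · exact ⟨n, 1, Or.inl rfl, by rw [C_1, one_mul, ← h, h2]; ring⟩
    · exact ⟨n, -1, Or.inr rfl, by
        rw [C_neg, C_1, neg_mul, one_mul, ← h, h2]; ring⟩
  obtain ⟨m, δ, hδ, hw1⟩ : ∃ m, ∃ δ : ZMod p, (δ = 1 ∨ δ = -1) ∧
      w + 1 = C δ * (dickson 1 (1 : ZMod p) m).comp (z + 1) := by
    obtain ⟨n, h | h⟩ := hpell p (z + 1) x' y' (by rwa [hz1]) (by linear_combination h3)
    · exact ⟨n, 1, Or.inl rfl, by rw [C_1, one_mul, ← h, h4]; ring⟩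
    · exact ⟨n, -1, Or.inr rfl, by
        rw [C_neg, C_1, neg_mul, one_mul, ← h, h4]; ring⟩
  have hε0 : ε ≠ 0 := by
    rcases hε with h | h <;> rw [h] <;> simp
  have hδ0 : δ ≠ 0 := by
    rcases hδ with h | h <;> rw [h] <;> simp
  have hε2 : ε * ε = 1 := by
    rcases hε with h | h <;> rw [h] <;> ring
  have hd1 : (w + 1).natDegree = w.natDegree := by
    rw [← C_1, natDegree_add_C]
  -- the index is positive
  have hn : 0 < n := by
    rcases Nat.eq_zero_or_pos n with h0 | h0
    · exfalso
      rw [h0, dickson_zero] at hw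
      have h3' : (3 - ((1 : ℕ) : (ZMod p)[X])) = C 2 := by
        norm_num
        rfl
      rw [h3', C_comp, ← C_mul] at hw
      have hwd : w.natDegree = 0 := by rw [hw, natDegree_C]
      have hw0 : w = 0 := by
        by_contra hne
        have hu : u ≠ 0 := by
          rintro rfl
          rw [mul_zero] at h5
          exact hne h5
        have hz0 : z ≠ 0 := by
          rintro rfl
          rw [natDegree_zero] at hz
          exact lt_irrefl _ hz
        rw [h5, natDegree_mul hz0 hu] at hwd
        omega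
      rcases Nat.eq_zero_or_pos m with hm | hm
      · rw [hm, dickson_zero, h3', C_comp, ← C_mul, hw0, zero_add, ← C_1] at hw1
        have h6 : (1 : ZMod p) = δ * 2 := C_injective hw1
        have h7 : ε * 2 = 0 := by
          rw [hw0] at hw
          exact (C_injective (by rw [← hw, C_0] : C (ε * 2) = C (0 : ZMod p)))
        have h8 : (2 : ZMod p) = 0 := (mul_eq_zero.1 h7).resolve_left hε0
        rw [h8, mul_zero] at h6
        exact one_ne_zero h6
      · have h6 := congrArg natDegree hw1
        rw [hd1, hwd, natDegree_C_mul hδ0, comp_natDegree_pos hm, hz1] at h6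
        have := Nat.mul_pos hm hz
        omega
    · exact h0
  have hwd : w.natDegree = n * z.natDegree := by
    rw [hw, natDegree_C_mul hε0, comp_natDegree_pos hn]
  have hm : m = n := by
    have h6 := congrArg natDegree hw1
    rw [hd1, hwd, natDegree_C_mul hδ0] at h6
    rcases Nat.eq_zero_or_pos m with hm | hm
    · exfalso
      rw [hm, dickson_zero] at h6
      have h3' : (3 - ((1 : ℕ) : (ZMod p)[X])) = C 2 := by
        norm_num
        rfl
      rw [h3', C_comp, natDegree_C] at h6
      have := Nat.mul_pos hn hz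
      omega
    · rw [comp_natDegree_pos hm, hz1] at h6
      exact (Nat.eq_of_mul_eq_mul_right hz h6).symm
  subst hm
  have hsign : ε = δ := by
    have h6 : (w + 1).leadingCoeff = w.leadingCoeff := by
      rw [leadingCoeff, leadingCoeff, hd1, coeff_add, coeff_one, if_neg, add_zero]
      have := Nat.mul_pos hn hz
      omega
    rw [hw1, hw, leadingCoeff_mul, leadingCoeff_mul, leadingCoeff_C, leadingCoeff_C,
      leadingCoeff_comp hz.ne', leadingCoeff_comp (by rw [hz1]; exact hz.ne'),
      (dickson_mon hn).leadingCoeff, one_mul, one_mul] at h6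
    have h7 : (z + 1).leadingCoeff = z.leadingCoeff := by
      rw [leadingCoeff, leadingCoeff, hz1, coeff_add, coeff_one, if_neg (by omega), add_zero]
    rw [h7] at h6
    have h8 : z.leadingCoeff ^ (dickson 1 (1 : ZMod p) m).natDegree ≠ 0 := by
      refine pow_ne_zero _ (leadingCoeff_ne_zero.2 ?_)
      rintro rfl
      rw [natDegree_zero] at hz
      exact lt_irrefl _ hz
    exact (mul_right_cancel₀ h8 h6).symm
  subst hsign
  have hkey : (dickson 1 (1 : ZMod p) m).comp (X + 1) - dickson 1 (1 : ZMod p) m = C ε := by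
    have h6 : ((dickson 1 (1 : ZMod p) m).comp (X + 1) - dickson 1 (1 : ZMod p) m - C ε).comp z
        = 0 := by
      rw [sub_comp, sub_comp, C_comp, comp_assoc, add_comp, X_comp, one_comp]
      have h7 : C ε * ((dickson 1 (1 : ZMod p) m).comp (z + 1) -
          (dickson 1 (1 : ZMod p) m).comp z) = 1 := by
        rw [mul_sub, ← hw1, ← hw]
        ring
      have h8 : (C ε * C ε : (ZMod p)[X]) = 1 := by rw [← C_mul, hε2, C_1]
      linear_combination C ε * h7 - ((dickson 1 (1 : ZMod p) m).comp (z + 1) -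
          (dickson 1 (1 : ZMod p) m).comp z) * h8
    rcases comp_eq_zero_iff.1 h6 with h7 | h7
    · exact sub_eq_zero.1 h7
    · exfalso
      rw [h7.2, natDegree_C] at hz
      exact lt_irrefl _ hz
  obtain ⟨h6, s, h7⟩ := hshift p m ε hn hkey
  refine ⟨s, ?_⟩
  rw [hw, h6, h7, dickson_pow, pow_comp, X_comp, C_1, one_mul]

end Pool.Agent.Y544.FD
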