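import Mathlib

/-!
# The statements of the parts

Project FD (MP_8315be_lc, frozen S14977): a uniform existential definition of the relation
`deg f = deg g` in `F_p[t]`.
-/

set_option autoImplicit false

namespace Pool.Agent.Y544.FD

open Polynomial

/-- J1: the solutions of `x² + zxy + y² = 1` in `F_p[t]`, `z` not constant. -/
def S_pell : Prop := ∀ (p : ℕ) [Fact p.Prime] (z x y : (ZMod p)[X]), 0 < z.natDegree →
  x ^ 2 + z * x * y + y ^ 2 = 1 →
  ∃ n : ℕ, 2 * x + z * y = (dickson 1 (1 : ZMod p) n).comp z ∨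
    2 * x + z * y = -(dickson 1 (1 : ZMod p) n).comp z

/-- J2: the Dickson polynomials which are additive in this sense are the powers `X ^ (p ^ s)`. -/
def S_shift : Prop := ∀ (p : ℕ) [Fact p.Prime] (n : ℕ) (e : ZMod p), 0 < n →
  (dickson 1 (1 : ZMod p) n).comp (X + 1) - dickson 1 (1 : ZMod p) n = C e →
  e = 1 ∧ ∃ s, n = p ^ s

/-- J4: every nonzero polynomial divides a difference of two powers. -/
def S_pigeon : Prop := ∀ (p : ℕ) [Fact p.Prime] (f : (ZMod p)[X]), f ≠ 0 →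
  ∃ i j : ℕ, j < i ∧ f ∣ X ^ p ^ i - X ^ p ^ j

/-- J5: the reversed polynomial modulo `t ^ (q + 1) - 1`. -/
def S_reverse : Prop := ∀ (p : ℕ) [Fact p.Prime] (s : ℕ) (f : (ZMod p)[X]),
  (X * X ^ p ^ s - 1 : (ZMod p)[X]) ∣ X ^ f.natDegree * f ^ p ^ s - f.reverse

end Pool.Agent.Y544.FD
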