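import Pool.Agent.Y544.FD.Stm

/-!
# Two auxiliary results
-/

set_option autoImplicit false

namespace Pool.Agent.Y544.FD

open Polynomial

theorem pigeon : S_pigeon := by
  intro p hp f hf
  have hfin : Finite (AdjoinRoot f) := by
    have : Module.Finite (ZMod p) (AdjoinRoot f) :=
      (AdjoinRoot.powerBasis hf).finite
    exact Module.finite_of_finite (ZMod p)
  obtain ⟨i, j, hij, h⟩ := Finite.exists_ne_map_eq_of_infinite
    fun i : ℕ => AdjoinRoot.mk f (X ^ p ^ i)
  have key : ∀ i j : ℕ, AdjoinRoot.mk f (X ^ p ^ i) = AdjoinRoot.mk f (X ^ p ^ j) →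
      f ∣ X ^ p ^ i - X ^ p ^ j := fun i j h => AdjoinRoot.mk_eq_mk.1 h
  rcases lt_or_gt_of_ne hij with h1 | h1
  · exact ⟨j, i, h1, key j i h.symm⟩
  · exact ⟨i, j, h1, key i j h⟩

theorem rev : S_reverse := by
  intro p hp s f
  obtain ⟨q, hq⟩ : ∃ q, q = p ^ s := ⟨_, rfl⟩
  -- the power is a composition
  have h1 : f ^ p ^ s = f.sum fun i a => C a * (X ^ p ^ s) ^ i := by
    induction f using Polynomial.induction_on' with
    | add a b ha hb =>
      rw [add_pow_char_pow, ha, hb, sum_add_index]
      · intro i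
        rw [C_0, zero_mul]
      · intro i a b
        rw [C_add, add_mul]
    | monomial n a =>
      rw [sum_monomial_index _ _ (by rw [C_0, zero_mul]), ← C_mul_X_pow_eq_monomial, mul_pow,
        ← C_pow, ZMod.pow_card_pow, ← pow_mul, ← pow_mul, mul_comm n]
  have h2 : f.reverse = f.sum fun i a => C a * X ^ (f.natDegree - i) := by
    conv_lhs => rw [← sum_C_mul_X_pow_eq f]
    rw [sum_C_mul_X_pow_eq]
    ext n
    rw [coeff_reverse, sum_def, finsetSum_coeff]
    simp only [coeff_C_mul, coeff_X_pow]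
    by_cases hn : n ≤ f.natDegree
    · rw [revAt_le hn]
      rw [Finset.sum_eq_single (f.natDegree - n)]
      · rw [if_pos (by omega), mul_one]
      · intro i hi hne
        have : i ≤ f.natDegree := le_natDegree_of_mem_supp i hi
        rw [if_neg (by omega), mul_zero]
      · intro hi
        rw [notMem_support_iff.1 hi, zero_mul]
    · rw [revAt_eq_self_of_lt (by omega), coeff_eq_zero_of_natDegree_lt (by omega)]
      symm
      refine Finset.sum_eq_zero fun i hi => ?_
      rw [if_neg (by omega), mul_zero]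
  rw [h1, h2, sum_def, sum_def, Finset.mul_sum, ← Finset.sum_sub_distrib]
  refine Finset.dvd_sum fun i hi => ?_
  have hle : i ≤ f.natDegree := le_natDegree_of_mem_supp i hi
  have h3 : (X ^ f.natDegree * (C (f.coeff i) * (X ^ p ^ s) ^ i) -
      C (f.coeff i) * X ^ (f.natDegree - i) : (ZMod p)[X]) =
      C (f.coeff i) * X ^ (f.natDegree - i) * ((X * X ^ p ^ s) ^ i - 1 ^ i) := by
    have h4 : (X ^ f.natDegree : (ZMod p)[X]) = X ^ (f.natDegree - i) * X ^ i := by
      rw [← pow_add]
      congr 1
      omega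
    rw [h4, mul_pow, one_pow]
    ring
  rw [h3]
  exact Dvd.dvd.mul_left (sub_dvd_pow_sub_pow _ _ _) _

end Pool.Agent.Y544.FD
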